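import Mathlib
import Pool.Agent.H424.QI.Main

/-!
# The Ramanujan conjecture for `GL(2)` over number fields: almost all places of degree two

Let `K` be a number field, `E / K` a quadratic extension and `π` a unitary cuspidal automorphic representation of
`GL_2` over `E`. The Rankin-Selberg method over `E` gives bounds towards the Ramanujan conjecture which are better than
the known ones at almost all places `w` of `E`; it says nothing about the places `w` of degree two over `K`, as these have
density zero among the places of `E`. We show that for every `ϑ > 0` the bound `θ_w < ϑ`,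

  `θ_w = max_i |log_{N w} |α_{i,w}||`,

holds for almost all places of degree two as well, uniformly in `π` and in `E`, in a range which begins at a power of the
logarithm of the conductor `C`: if `v` runs through the places of `K` which are inert in `E` (and not in `S`) and `w`
denotes the place above `v`, then for all `x ≥ 2`

  `∑_{N v ≤ x} (N v)^{-(1 - 4 θ_w)} ≤ A (log (2 C) + log log (3 x))`,   `A` depending only on `K`.

So at most `A x^{1 - 4 ϑ} (log (2 C) + log log (3 x))` inert `v` with `N v ≤ x` have `θ_w ≥ ϑ`, and, for every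
`γ > 1 / (4 ϑ)` and `ε > 0`, at most `ε x / log x` as soon as `x ≥ B (log (2 C))^γ`, with `B` depending only on `K`, `ϑ`,
`γ` and `ε`.

The theorem is stated for a representation `Π` of `GL_n` over `E`, `n = 2` or `n = 3`, with the structure `AsaiGL` of
`LeastInertPlace` of this problem: the adjoint `L`-function `L(s, As Π × (As Π)~) / ζ_K(s)` of the Asai lift is entire, of
polynomial growth in vertical strips, with its functional equation. This is known, see `LeastInertPlace`,

* for `Π = π` on `GL_2`, if `π` is not dihedral and `Ad π` is not isomorphic to its conjugate under `Gal(E / K)`;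
* for `Π = Ad π` on `GL_3`, if `π` is not dihedral, tetrahedral or octahedral and `Ad π` and `A⁴ π` are not isomorphic to
  their conjugates. Here `θ_w(Ad π) = 2 θ_w(π)`, so the theorem gives for `π` the sharper
  `∑_{N v ≤ x} (N v)^{-(1 - 8 θ_w(π))} ≤ A (log (2 C) + log log (3 x))`: at most
  `A x^{1 - 8 ϑ} (log (2 C) + log log (3 x))` inert `v` have `θ_w(π) ≥ ϑ`.

(In the other cases `π` is tempered or essentially a twist of a base change from `K`.) `C = Q² ∏_j (1 + |κ_j|) ∏_{(v, i) ∈ T} N v`,
`Q²` being the conductor of the adjoint `L`-function and `Γ_ℝ(s + κ_j)` its Gamma factors; `T` consists of the finitely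
many local factors which are removed at the finite set `S` of the bad places.

Known before: `θ_w ≤ 7/64` (Kim and Sarnak, Blomer and Brumley); for fixed `π` the density of the inert places at which `π`
is tempered; the least inert place at which `π` is tempered (`LeastInertPlace`), bounded by `C^{1+ε}`.

The proof: at an inert `v` the trace of `As(Π)_v` is `tr Π_w`, and the eigenvalue of largest absolute value `(N w)^{θ_w}`
gives `|tr Π_w| ≥ (N v)^{2 θ_w} / 2` unless `(N v)^{2 θ_w} < 2 n`, as at most one of the at most three Satake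
parameters is larger than `1` in absolute value. The coefficients of
`log L^S(s, As Π × (As Π)~) = ∑ |tr As(Π)_v^k|² / (k (N v)^{ks})` are nonnegative; by Landau's lemma the series converges
for `s > 1`. The functional equation and the Phragmen-Lindelof principle bound `L(1 + δ)` by `δ^{-1}` times a constant
times `C³`: the factors at `S` which are not removed have nonnegative power sums, so that their inverses are at most `1`
for real `s > 1`. Take `δ = 1 / log (3 x)`.
-/

set_option autoImplicit false

namespace Pool.Agent.Results.MP_8410ab_nt.AlmostAllInertPlaces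

open NumberField IsDedekindDomain
open Pool.Agent.R398.LI (AsaiGL)
open Pool.Agent.R398.AS (Nm Above IP)
open Pool.Agent.H424.QI (Unitary th cond)

/-- **Bounds towards the Ramanujan conjecture at almost all inert places, uniformly in the representation.** -/
theorem result (K : Type) [Field K] [NumberField K] {n : ℕ} (hn : n = 2 ∨ n = 3) :
    (∃ A : ℝ, 0 < A ∧ ∀ (E : Type) [Field E] [NumberField E] [Algebra K E], Module.finrank K E = 2 →
      ∀ (S : Finset (HeightOneSpectrum (𝓞 K))) (α : HeightOneSpectrum (𝓞 E) → Fin n → ℂ)
        (β : HeightOneSpectrum (𝓞 K) → Fin (n ^ 4 - 1) → ℂ)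
        (T : Finset (HeightOneSpectrum (𝓞 K) × Fin (n ^ 4 - 1)))
        (κ : Fin ((n ^ 4 - 1) * Module.finrank ℚ K) → ℂ) (Q : ℝ), AsaiGL S α β T κ Q →
        (∀ w : HeightOneSpectrum (𝓞 E), (∀ v ∈ S, ¬ Above v w) → Unitary (α w)) → ∀ x : ℝ, 2 ≤ x →
          (∑' v : IP E S, if (Nm v.1 : ℝ) ≤ x then (Nm v.1 : ℝ) ^ (-(1 - 4 * th α v)) else 0) ≤
            A * (Real.log (2 * cond T κ Q) + Real.log (Real.log (3 * x)))) ∧
    ∀ ϑ γ ε : ℝ, 0 < ϑ → ϑ ≤ 1 / 4 → 1 / (4 * ϑ) < γ → 0 < ε → ∃ B : ℝ, 0 < B ∧
      ∀ (E : Type) [Field E] [NumberField E] [Algebra K E], Module.finrank K E = 2 →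
      ∀ (S : Finset (HeightOneSpectrum (𝓞 K))) (α : HeightOneSpectrum (𝓞 E) → Fin n → ℂ)
        (β : HeightOneSpectrum (𝓞 K) → Fin (n ^ 4 - 1) → ℂ)
        (T : Finset (HeightOneSpectrum (𝓞 K) × Fin (n ^ 4 - 1)))
        (κ : Fin ((n ^ 4 - 1) * Module.finrank ℚ K) → ℂ) (Q : ℝ), AsaiGL S α β T κ Q →
        (∀ w : HeightOneSpectrum (𝓞 E), (∀ v ∈ S, ¬ Above v w) → Unitary (α w)) →
        ∀ x : ℝ, B * Real.log (2 * cond T κ Q) ^ γ ≤ x →
          (({v : IP E S | (Nm v.1 : ℝ) ≤ x ∧ ϑ ≤ th α v}.ncard : ℕ) : ℝ) ≤ ε * (x / Real.log x) :=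
  Pool.Agent.H424.QI.final K hn

end Pool.Agent.Results.MP_8410ab_nt.AlmostAllInertPlaces
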