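import Mathlib
import Pool.Agent.H406.GLF.Main

/-!
# The Ramanujan conjecture for `GL(4)` over number fields: densities of the sets of places with large parameters

Let `K` be a number field and let `Π` be a unitary cuspidal automorphic representation of `GL_4` over `K`,
unramified at the finite places outside the finite set `S`, with Satake parameters `α_{i,v}`, `v ∉ S`. The component
`Π_v` is tempered iff `|α_{i,v}| = 1` for all `i`. The following facts on `Π` are used, as hypotheses on the numbers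
`α_{i,v}`:

* `Unitary`: `Π_v` is unitary, so the multiset of the `α_{i,v}` is stable under `z ↦ 1 / z̄`;
* `RSPole α 1`: `L(s, Π × Π~)` converges for `s > 1` and has a simple pole at `1` (Jacquet, Shalika);
* `RSPole (ext2 α) m`: the same for the exterior square `∧² Π`, which is an isobaric automorphic representation of
  `GL_6` (Kim); here `m ≥ 1` is the order of the pole, and `m = 1` iff `∧² Π` is cuspidal.

Put `R = r + 1 / r`. We show that the upper Dirichlet density of the places `v` with `|α_{i,v}| ≥ r` for some `i` is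
at most `((R + √m) / (R² - 2))²`, for every `r > 1`. So all the parameters are smaller than `7 / 4` in absolute value
at a set of places of lower density at least `1 / 26` if `m = 1`, and smaller than `2` at a set of places of lower
density at least `8 / 25` if `m = 1` and at least `3 / 20` if `m = 2`.

The proof: if `|α_{i,v}| = ρ > 1` and `P = ρ + 1 / ρ`, unitarity gives `P² - 2 ≤ |tr ∧² Π_v| + P |tr Π_v|`. By
Cauchy's inequality `|tr ∧² Π_v|² + R √m |tr Π_v|²` is large, and the mean of this quantity is known from the poles.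
-/

set_option autoImplicit false

open NumberField IsDedekindDomain Filter Topology

namespace Pool.Agent.Results.MP_8410ab_nt.GL4Densities

/-- the finite places of `K` outside `S` -/
abbrev Places {K : Type} [Field K] [NumberField K] (S : Finset (HeightOneSpectrum (𝓞 K))) :=
  {v : HeightOneSpectrum (𝓞 K) // v ∉ S}

/-- the norm of a finite place -/
noncomputable def Nm {K : Type} [Field K] [NumberField K] (v : HeightOneSpectrum (𝓞 K)) : ℕ :=
  Ideal.absNorm v.asIdeal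

/-- The multiset of the `a i` is stable under `z ↦ 1 / z̄`. -/
def Unitary {n : ℕ} (a : Fin n → ℂ) : Prop :=
  (∀ i, a i ≠ 0) ∧ ∃ τ : Equiv.Perm (Fin n), ∀ i, a (τ i) = ((starRingEnd ℂ) (a i))⁻¹

/-- the parameters of the exterior square -/
noncomputable def ext2 (a : Fin 4 → ℂ) : Fin 6 → ℂ :=
  ![a 0 * a 1, a 0 * a 2, a 0 * a 3, a 1 * a 2, a 1 * a 3, a 2 * a 3]

section

variable {K : Type} [Field K] [NumberField K] {S : Finset (HeightOneSpectrum (𝓞 K))}

/-- `(N v)^{-σ}` -/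
noncomputable def ww (σ : ℝ) (v : Places S) : ℝ := (Nm v.1 : ℝ) ^ (-σ)

/-- the term of the logarithm of the partial Rankin-Selberg `L`-function -/
noncomputable def rsTerm {n : ℕ} (a : Places S → Fin n → ℂ) (σ : ℝ) (x : Places S × ℕ) : ℝ :=
  ‖∑ i, a x.1 i ^ (x.2 + 1)‖ ^ 2 / ((x.2 : ℝ) + 1) * ((Nm x.1.1 : ℝ) ^ (-σ)) ^ (x.2 + 1)

/-- `log L^S(σ, π × π~) = ∑_{v ∉ S} ∑_{k ≥ 1} |∑_i a_{i,v}^k|² / k · (N v)^{-kσ}` -/
noncomputable def logRS {n : ℕ} (a : Places S → Fin n → ℂ) (σ : ℝ) : ℝ := ∑' x : Places S × ℕ, rsTerm a σ x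

/-- The partial Rankin-Selberg `L`-function `L^S(σ, π × π~)` converges for `σ > 1` and has a pole of order `m`
at `1`. -/
def RSPole {n : ℕ} (a : Places S → Fin n → ℂ) (m : ℕ) : Prop :=
  (∀ σ : ℝ, 1 < σ → Summable (rsTerm a σ)) ∧
  ∃ c : ℝ, 0 < c ∧ Tendsto (fun σ : ℝ => (σ - 1) ^ m * Real.exp (logRS a σ)) (𝓝[>] 1) (𝓝 c)

/-- `∑_{v ∈ Z} (N v)^{-σ} ≤ δ log (1 / (σ - 1)) + O(1)`; so the upper Dirichlet density of `Z` is at most `δ`. -/
def UpperLE (Z : Set (Places S)) (δ : ℝ) : Prop :=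
  ∃ C : ℝ, ∀ᶠ σ : ℝ in 𝓝[>] 1, ∑' v : Places S, Z.indicator (ww σ) v ≤ δ * Real.log (1 / (σ - 1)) + C

/-- `∑_{v ∈ Z} (N v)^{-σ} ≥ δ log (1 / (σ - 1)) - O(1)`; so the lower Dirichlet density of `Z` is at least `δ`. -/
def LowerGE (Z : Set (Places S)) (δ : ℝ) : Prop :=
  ∃ C : ℝ, ∀ᶠ σ : ℝ in 𝓝[>] 1, δ * Real.log (1 / (σ - 1)) - C ≤ ∑' v : Places S, Z.indicator (ww σ) v

end

theorem lower_of_upper {K : Type} [Field K] [NumberField K] {S : Finset (HeightOneSpectrum (𝓞 K))}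
    {Z W : Set (Places S)} {δ ε : ℝ} (h : Pool.Agent.H406.GLF.UpperLE Z δ) (hW : ∀ v, v ∉ W → v ∈ Z)
    (hd : ε ≤ 1 - δ) : LowerGE W ε := by
  refine (h.compl.mono hd).subset fun v hv => ?_
  by_contra h'
  exact hv (hW v h')

/-- **Densities for `GL(4)`.** -/
theorem result {K : Type} [Field K] [NumberField K] (S : Finset (HeightOneSpectrum (𝓞 K)))
    (α : Places S → Fin 4 → ℂ) (hU : ∀ v, Unitary (α v)) (h1 : RSPole α 1) {m : ℕ} (hm : 1 ≤ m)
    (h2 : RSPole (fun v => ext2 (α v)) m) :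
    (∀ r : ℝ, 1 < r → UpperLE {v : Places S | ∃ i, r ≤ ‖α v i‖}
      (((r + r⁻¹ + √m) / ((r + r⁻¹) ^ 2 - 2)) ^ 2)) ∧
    (m = 1 → LowerGE {v : Places S | ∀ i, ‖α v i‖ < 7 / 4} (1 / 26) ∧
      LowerGE {v : Places S | ∀ i, ‖α v i‖ < 2} (8 / 25)) ∧
    (m = 2 → LowerGE {v : Places S | ∀ i, ‖α v i‖ < 2} (3 / 20)) := by
  have h : ∀ r : ℝ, 1 < r → Pool.Agent.H406.GLF.UpperLE {v : Places S | ∃ i, r ≤ ‖α v i‖}
      (((r + r⁻¹ + √m) / ((r + r⁻¹) ^ 2 - 2)) ^ 2) := fun r hr => Pool.Agent.H406.GLF.gl4_upper hm hU h1 h2 hr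
  refine ⟨h, fun hm1 => ⟨?_, ?_⟩, fun hm2 => ?_⟩
  · refine lower_of_upper (h (7 / 4) (by norm_num)) (fun v hv => ?_) ?_
    · simp only [Set.mem_ofPred_eq, not_forall, not_lt] at hv
      exact hv
    · rw [hm1, Nat.cast_one, Real.sqrt_one]
      norm_num
  · refine lower_of_upper (h 2 (by norm_num)) (fun v hv => ?_) ?_
    · simp only [Set.mem_ofPred_eq, not_forall, not_lt] at hv
      exact hv
    · rw [hm1, Nat.cast_one, Real.sqrt_one]
      norm_num
  · refine lower_of_upper (h 2 (by norm_num)) (fun v hv => ?_) ?_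
    · simp only [Set.mem_ofPred_eq, not_forall, not_lt] at hv
      exact hv
    · have h3 : √((m : ℕ) : ℝ) ≤ 1415 / 1000 := by
        rw [hm2, Real.sqrt_le_left (by norm_num)]
        norm_num
      have h4 : ((2 + (2 : ℝ)⁻¹ + √((m : ℕ) : ℝ)) / ((2 + (2 : ℝ)⁻¹) ^ 2 - 2)) ^ 2 ≤
          ((2 + (2 : ℝ)⁻¹ + 1415 / 1000) / ((2 + (2 : ℝ)⁻¹) ^ 2 - 2)) ^ 2 := by
        have h5 : (0 : ℝ) < (2 + (2 : ℝ)⁻¹) ^ 2 - 2 := by norm_num
        refine pow_le_pow_left₀ (by positivity) ?_ 2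
        refine div_le_div_of_nonneg_right (by linarith) h5.le
      refine le_trans ?_ (sub_le_sub_left h4 1)
      norm_num

end Pool.Agent.Results.MP_8410ab_nt.GL4Densities
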