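import Mathlib
import Pool.Agent.Hp428.FM.Main

/-!
# The Ramanujan conjecture for `GL(2)` over number fields: many forms at the same place

Let `K` be a number field, `S` a finite set of finite places and `π_i`, `i ∈ ι`, a finite or infinite family of
unitary cuspidal automorphic representations of `GL_2` over `K`, unramified outside `S`, with Satake parameters
`α i v : Fin 2 → ℂ`, `v ∉ S`. The component of `π_i` at `v` is tempered iff `|α i v a| = 1` for `a = 0, 1`. We ask how
many of the `π_i` can be nontempered at the same place `v`.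

With `z = α i v 0 / α i v 1`, the adjoint square `Ad π_i` (Gelbart-Jacquet) has the parameters `z, 1, 1 / z`, and
`A⁴ π_i = Sym⁴ π_i ⊗ ω_i⁻²` (Kim) has the parameters `z², z, 1, 1 / z, 1 / z²`. We assume that all the `Ad π_i` and all
the `A⁴ π_i` are cuspidal and pairwise inequivalent. (The representations for which one of the two is not cuspidal
are of Galois type or dihedral and are tempered everywhere.) Then the following facts, which are the hypotheses in
`Family`, are known: the local components are unitary (`Unitary`), and for any two `Π, Π'` of the representations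
`1, Ad π_i, A⁴ π_i` the partial Rankin-Selberg `L`-function `L^S(s, Π × Π'~)` converges for `s > 1`, has a simple
pole at `s = 1` if `Π = Π'`, and is finite and not zero at `s = 1` otherwise (Jacquet, Piatetski-Shapiro, Shalika;
Shahidi).

For one form the places where it is nontempered have upper Dirichlet density at most `1 / 35` (Ramakrishnan for
`1 / 10`, Kim and Shahidi). For `k` forms, this bounds only the average number of nontempered components at a place.
We show that at *almost all* places the number of the nontempered components is at most `(1 / 10 + ε) k`: the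
exceptional places have upper density `O(1 / (ε² k))`. More precisely, put `s = r² + r⁻² + 1` for `r ≥ 1`, and say that
`π_i` is large at `v` if it is nontempered there with a parameter `≥ r` in absolute value.

* The places at which at least `j` of `k` given forms are large have upper density at most
  `k V / (k V + (j (s + l)² - k (1 + l²))²)`, `V = 1 + (1 + 2 l)²`, for every real `l ≥ -s` with
  `j (s + l)² > k (1 + l²)`.
  For `r = 1` and `l = 1 / 3` this is `153 k / (153 k + 50 (10 j - k)²)`; for `r = 1`, `j = k` and `l = -1 / 5` it is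
  `1 / (34 k + 1)`: *all* the `k` forms are nontempered at a set of places of upper density at most `1 / (34 k + 1)`.
* Two given forms are both large at a set of places of upper density at most `1 / (1 + s²)²`, which is `1 / 100` for
  `r = 1`. So at `99` percent of the places at least one of two given forms is tempered.
* In an infinite family, for every `m`, at least `m` of the representations are tempered at a set of places of
  density one.

The proof uses the pole of all the pairs: the sums over the family of `q = (1 + 2 l) tr Ad + tr A⁴` have mean zero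
and variance `k V`, and `q = (tr Ad + l)² - (1 + l²)`. For two forms,
`((1 + s tr Ad π_1) (1 + s tr Ad π_2))²` is a combination of the products of one trace of each of the two forms.
-/

set_option autoImplicit false

open NumberField IsDedekindDomain Filter Topology

namespace Pool.Agent.Results.MP_8410ab_nt.ManyForms

/-- the finite places of `K` outside `S` -/
abbrev Places {K : Type} [Field K] [NumberField K] (S : Finset (HeightOneSpectrum (𝓞 K))) :=
  {v : HeightOneSpectrum (𝓞 K) // v ∉ S}

/-- the norm of a finite place -/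
noncomputable def Nm {K : Type} [Field K] [NumberField K] (v : HeightOneSpectrum (𝓞 K)) : ℕ :=
  Ideal.absNorm v.asIdeal

/-- The multiset of the `a i` is stable under `z ↦ 1 / z̄`. -/
def Unitary {n : ℕ} (a : Fin n → ℂ) : Prop :=
  (∀ i, a i ≠ 0) ∧ ∃ τ : Equiv.Perm (Fin n), ∀ i, a (τ i) = ((starRingEnd ℂ) (a i))⁻¹

/-- the ratio of the two parameters -/
noncomputable def ratio (a : Fin 2 → ℂ) : ℂ := a 0 / a 1

/-- the parameters `z, 1, z⁻¹` of the adjoint square -/
noncomputable def Ad (a : Fin 2 → ℂ) : Fin 3 → ℂ := ![ratio a, 1, (ratio a)⁻¹]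

/-- the parameters `z², z, 1, z⁻¹, z⁻²` of the symmetric fourth power twisted by `ω⁻²` -/
noncomputable def A4 (a : Fin 2 → ℂ) : Fin 5 → ℂ := ![ratio a ^ 2, ratio a, 1, (ratio a)⁻¹, (ratio a)⁻¹ ^ 2]

/-- nontempered, with a parameter of absolute value at least `r` -/
def Large (r : ℝ) (a : Fin 2 → ℂ) : Prop := ∃ i, 1 < ‖a i‖ ∧ r ≤ ‖a i‖

section

variable {K : Type} [Field K] [NumberField K] {S : Finset (HeightOneSpectrum (𝓞 K))}

/-- the parameter of the trivial representation of `GL(1)` -/
def Triv : Places S → Fin 1 → ℂ := fun _ _ => 1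

/-- `(N v)^{-σ}` -/
noncomputable def ww (σ : ℝ) (v : Places S) : ℝ := (Nm v.1 : ℝ) ^ (-σ)

/-- the term of the logarithm of the partial Rankin-Selberg `L`-function of a pair -/
noncomputable def pairTerm {m n : ℕ} (a : Places S → Fin m → ℂ) (b : Places S → Fin n → ℂ) (σ : ℝ)
    (x : Places S × ℕ) : ℂ :=
  (∑ i, a x.1 i ^ (x.2 + 1)) * (starRingEnd ℂ) (∑ i, b x.1 i ^ (x.2 + 1)) / ((x.2 : ℂ) + 1) *
    ((((Nm x.1.1 : ℝ) ^ (-σ)) ^ (x.2 + 1) : ℝ) : ℂ)

/-- `log L^S(σ, Π × Π'~) = ∑_{v ∉ S} ∑_{k ≥ 1} (∑_i a_{i,v}^k) (∑_i b̄_{i,v}^k) / k · (N v)^{-kσ}` -/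
noncomputable def logPair {m n : ℕ} (a : Places S → Fin m → ℂ) (b : Places S → Fin n → ℂ) (σ : ℝ) : ℂ :=
  ∑' x : Places S × ℕ, pairTerm a b σ x

/-- The partial Rankin-Selberg `L`-function `L^S(σ, Π × Π'~)` converges for `σ > 1` and has a pole of order `p`
at `1`; it is finite and not zero at `1` if `p = 0`. -/
def PairPole {m n : ℕ} (a : Places S → Fin m → ℂ) (b : Places S → Fin n → ℂ) (p : ℕ) : Prop :=
  (∀ σ : ℝ, 1 < σ → Summable (pairTerm a b σ)) ∧
  ∃ c : ℂ, c ≠ 0 ∧ Tendsto (fun σ : ℝ => ((σ - 1 : ℝ) : ℂ) ^ p * Complex.exp (logPair a b σ)) (𝓝[>] 1) (𝓝 c)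

/-- What is used of the representations `π_i`: they are unitary, and the Rankin-Selberg `L`-function of two of the
representations `1, Ad π_i, A⁴ π_i` has a simple pole at `1` if they are the same and is finite and not zero at `1`
otherwise. -/
structure Family {ι : Type} (α : ι → Places S → Fin 2 → ℂ) : Prop where
  unitary : ∀ i v, Unitary (α i v)
  ad_one : ∀ i, PairPole (fun v => Ad (α i v)) (Triv (S := S)) 0
  a4_one : ∀ i, PairPole (fun v => A4 (α i v)) (Triv (S := S)) 0
  ad_self : ∀ i, PairPole (fun v => Ad (α i v)) (fun v => Ad (α i v)) 1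
  a4_self : ∀ i, PairPole (fun v => A4 (α i v)) (fun v => A4 (α i v)) 1
  ad_ad : ∀ i j, i ≠ j → PairPole (fun v => Ad (α i v)) (fun v => Ad (α j v)) 0
  a4_a4 : ∀ i j, i ≠ j → PairPole (fun v => A4 (α i v)) (fun v => A4 (α j v)) 0
  ad_a4 : ∀ i j, PairPole (fun v => Ad (α i v)) (fun v => A4 (α j v)) 0

/-- `∑_{v ∈ Z} (N v)^{-σ} ≤ δ log (1 / (σ - 1)) + O(1)`; so the upper Dirichlet density of `Z` is at most `δ`. -/
def UpperLE (Z : Set (Places S)) (δ : ℝ) : Prop :=
  ∃ C : ℝ, ∀ᶠ σ : ℝ in 𝓝[>] 1, ∑' v : Places S, Z.indicator (ww σ) v ≤ δ * Real.log (1 / (σ - 1)) + C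

/-- `∑_{v ∈ Z} (N v)^{-σ} ≥ δ log (1 / (σ - 1)) - O(1)`; so the lower Dirichlet density of `Z` is at least `δ`. -/
def LowerGE (Z : Set (Places S)) (δ : ℝ) : Prop :=
  ∃ C : ℝ, ∀ᶠ σ : ℝ in 𝓝[>] 1, δ * Real.log (1 / (σ - 1)) - C ≤ ∑' v : Places S, Z.indicator (ww σ) v

end

theorem toFamily {K : Type} [Field K] [NumberField K] {S : Finset (HeightOneSpectrum (𝓞 K))} {ι : Type}
    {α : ι → Places S → Fin 2 → ℂ} (h : Family α) : Pool.Agent.Hp428.FM.Family α where
  unitary := h.unitary
  ad_one := h.ad_one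
  a4_one := h.a4_one
  ad_self := h.ad_self
  a4_self := h.a4_self
  ad_ad := h.ad_ad
  a4_a4 := h.a4_a4
  ad_a4 := h.ad_a4

/-- **Many forms at the same place.** -/
theorem result {K : Type} [Field K] [NumberField K] (S : Finset (HeightOneSpectrum (𝓞 K))) {ι : Type}
    (α : ι → Places S → Fin 2 → ℂ) (h : Family α) :
    -- at least `j` of `k = #J` given forms are large
    (∀ (J : Finset ι) (r : ℝ), 1 ≤ r → ∀ s : ℝ, s = r ^ 2 + (r ^ 2)⁻¹ + 1 → ∀ (j : ℕ) (l : ℝ), 0 ≤ s + l →
      J.card * (1 + l ^ 2) < j * (s + l) ^ 2 →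
      UpperLE {v : Places S | ∃ I ⊆ J, j ≤ I.card ∧ ∀ i ∈ I, Large r (α i v)}
        (J.card * (1 + (1 + 2 * l) ^ 2) /
          (J.card * (1 + (1 + 2 * l) ^ 2) + (j * (s + l) ^ 2 - J.card * (1 + l ^ 2)) ^ 2))) ∧
    -- two given forms are both large
    (∀ i j : ι, i ≠ j → ∀ r : ℝ, 1 ≤ r →
      UpperLE {v : Places S | Large r (α i v) ∧ Large r (α j v)} (1 / (1 + (r ^ 2 + (r ^ 2)⁻¹ + 1) ^ 2) ^ 2)) ∧
    -- infinite families
    (Infinite ι → ∀ (m : ℕ) (ε : ℝ), 0 < ε →
      LowerGE {v : Places S | ∃ I : Finset ι, m ≤ I.card ∧ ∀ i ∈ I, ∀ a, ‖α i v a‖ = 1} (1 - ε)) := by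
  refine ⟨fun J r hr s hs j l hl hj => ?_, fun i j hij r hr => ?_, fun hinf m ε hε => ?_⟩
  · exact Pool.Agent.Hp428.FM.many_upper (toFamily h) J hr hs hl hj fun v hv => hv
  · have h1 := Pool.Agent.Hp428.FM.two_upper (toFamily h) hij hr rfl rfl
    have e : 1 + (r ^ 2 + (r ^ 2)⁻¹ + 1) ^ 2 = (r ^ 2 + (r ^ 2)⁻¹ + 1) ^ 2 + 1 := add_comm _ _
    rw [e]
    exact h1
  · exact Pool.Agent.Hp428.FM.infinite_lower (toFamily h) m hε

/-- All of `k` given forms are nontempered at a set of places of upper density at most `1 / (34 k + 1)`. -/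
theorem all_nontempered {K : Type} [Field K] [NumberField K] (S : Finset (HeightOneSpectrum (𝓞 K))) {ι : Type}
    (α : ι → Places S → Fin 2 → ℂ) (h : Family α) (J : Finset ι) (hJ : J.Nonempty) :
    UpperLE {v : Places S | ∀ i ∈ J, Large 1 (α i v)} (1 / (34 * J.card + 1)) := by
  have hk : (1 : ℝ) ≤ J.card := by exact_mod_cast hJ.card_pos
  have h1 := (result S α h).1 J 1 le_rfl 3 (by norm_num) J.card (-1 / 5) (by norm_num) (by nlinarith)
  have e : (J.card : ℝ) * (1 + (1 + 2 * (-1 / 5)) ^ 2) / (J.card * (1 + (1 + 2 * (-1 / 5)) ^ 2) +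
      (J.card * (3 + (-1 / 5)) ^ 2 - J.card * (1 + (-1 / 5) ^ 2)) ^ 2) = 1 / (34 * J.card + 1) := by
    have h2 : (J.card : ℝ) ≠ 0 := by positivity
    rw [div_eq_div_iff (by positivity) (by positivity)]
    ring
  rw [e] at h1
  have hZ : {v : Places S | ∀ i ∈ J, Large 1 (α i v)} =
      {v : Places S | ∃ I ⊆ J, J.card ≤ I.card ∧ ∀ i ∈ I, Large 1 (α i v)} := by
    ext v
    constructor
    · exact fun hv => ⟨J, le_rfl, le_rfl, hv⟩
    · rintro ⟨I, hI, hc, hv⟩
      rw [Finset.eq_of_subset_of_card_le hI hc] at hv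
      exact hv
  rw [hZ]
  exact h1

end Pool.Agent.Results.MP_8410ab_nt.ManyForms
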