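import Mathlib
import Pool.Agent.H406.GLF.Main

/-!
# The Ramanujan conjecture for `GL(4)` over number fields: nontempered places in the symplectic type

Let `K` be a number field and let `Π` be a unitary cuspidal automorphic representation of `GL_4` over `K` of
symplectic type with the unitary similitude character `ω`, unramified at the finite places outside the finite set `S`,
with Satake parameters `α_{i,v}`, `v ∉ S`; for example the transfer of a generic cuspidal representation of `GSp_4`.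
The component `Π_v` is tempered iff `|α_{i,v}| = 1` for all `i`. The exterior square is automorphic (Kim), and
`∧² Π = (Π₅ ⊗ ω) ⊞ ω`. We assume that `Π₅` is cuspidal. The following facts are used, as hypotheses on the numbers
`α_{i,v}` and `ω_v`:

* `Unitary`: `Π_v` is unitary, so the multiset of the `α_{i,v}` is stable under `z ↦ 1 / z̄`;
* `Sympl`: `|ω_v| = 1`, and the `α_{i,v}` can be ordered with `α_{i,v} α_{3-i,v} = ω_v`;
* `RSPole α 1`: `L(s, Π × Π~)` converges for `s > 1` and has a simple pole at `1` (Jacquet, Shalika);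
* `RSPole`, `Regular` for the parameters `std5` of `Π₅`: the same for `L(s, Π₅ × Π₅~)`, and `L(s, Π₅)` is finite and
  not zero at `1` (Jacquet, Shalika).

A nontempered parameter `α` of `Π_v` is of the first kind if `α² / ω_v` is not a positive real number (then all four
absolute values are `|α|^{±1}`), and of the second kind otherwise. Put `R = r + 1 / r`. We show

* the upper Dirichlet density of the places with a parameter of the first kind is at most `1 / 2`, with one of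
  absolute value at least `r` at most `1 / (1 + (R² - 3)²)`;
* the upper density of the places with a parameter of the second kind is at most `5 / 7`, with one of absolute value
  at least `r` at most `((R + √(1 + k²)) / (R² - 1 + k))²` for all `k ≥ 0`.

So all the parameters are smaller than `27 / 20` in absolute value at a set of places of lower density at least
`1 / 100`, and smaller than `2` at one of lower density at least `13 / 25`.

The proof: if `|α_{i,v}| = ρ > 1` and `P = ρ + 1 / ρ`, then `tr Π₅,v ≥ P² - 3` for the first kind, and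
`P² - 1 + k ≤ |tr Π₅,v - k| + P |tr Π_v|` for the second kind. The means of `|tr Π₅,v - k|²` and of `|tr Π_v|²` are
known from the poles.
-/

set_option autoImplicit false

open NumberField IsDedekindDomain Filter Topology

namespace Pool.Agent.Results.MP_8410ab_nt.SymplecticDensities

/-- the finite places of `K` outside `S` -/
abbrev Places {K : Type} [Field K] [NumberField K] (S : Finset (HeightOneSpectrum (𝓞 K))) :=
  {v : HeightOneSpectrum (𝓞 K) // v ∉ S}

/-- the norm of a finite place -/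
noncomputable def Nm {K : Type} [Field K] [NumberField K] (v : HeightOneSpectrum (𝓞 K)) : ℕ :=
  Ideal.absNorm v.asIdeal

/-- The multiset of the `a i` is stable under `z ↦ 1 / z̄`. -/
def Unitary {n : ℕ} (a : Fin n → ℂ) : Prop :=
  (∀ i, a i ≠ 0) ∧ ∃ τ : Equiv.Perm (Fin n), ∀ i, a (τ i) = ((starRingEnd ℂ) (a i))⁻¹

/-- symplectic parameters with the similitude `w`, `|w| = 1`, in an order with `a i * a (3 - i) = w` -/
def Sympl (a : Fin 4 → ℂ) (w : ℂ) : Prop := ‖w‖ = 1 ∧ ∀ i, a i * a (Fin.rev i) = w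

/-- the parameters of the five-dimensional lift of symplectic parameters with the similitude `w` -/
noncomputable def std5 (a : Fin 4 → ℂ) (w : ℂ) : Fin 5 → ℂ :=
  ![a 0 * a 1 / w, a 0 * a 2 / w, 1, a 1 * a 3 / w, a 2 * a 3 / w]

/-- there is a nontempered parameter of absolute value at least `r` and of the first kind -/
def First (a : Fin 4 → ℂ) (w : ℂ) (r : ℝ) : Prop :=
  ∃ i, 1 < ‖a i‖ ∧ r ≤ ‖a i‖ ∧ ¬ ∃ ρ : ℝ, 0 < ρ ∧ a i ^ 2 = ρ * w

/-- there is a nontempered parameter of absolute value at least `r` and of the second kind -/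
def Second (a : Fin 4 → ℂ) (w : ℂ) (r : ℝ) : Prop :=
  ∃ i, 1 < ‖a i‖ ∧ r ≤ ‖a i‖ ∧ ∃ ρ : ℝ, 0 < ρ ∧ a i ^ 2 = ρ * w

section

variable {K : Type} [Field K] [NumberField K] {S : Finset (HeightOneSpectrum (𝓞 K))}

/-- `(N v)^{-σ}` -/
noncomputable def ww (σ : ℝ) (v : Places S) : ℝ := (Nm v.1 : ℝ) ^ (-σ)

/-- the term of the logarithm of the partial Rankin-Selberg `L`-function -/
noncomputable def rsTerm {n : ℕ} (a : Places S → Fin n → ℂ) (σ : ℝ) (x : Places S × ℕ) : ℝ :=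
  ‖∑ i, a x.1 i ^ (x.2 + 1)‖ ^ 2 / ((x.2 : ℝ) + 1) * ((Nm x.1.1 : ℝ) ^ (-σ)) ^ (x.2 + 1)

/-- `log L^S(σ, π × π~) = ∑_{v ∉ S} ∑_{k ≥ 1} |∑_i a_{i,v}^k|² / k · (N v)^{-kσ}` -/
noncomputable def logRS {n : ℕ} (a : Places S → Fin n → ℂ) (σ : ℝ) : ℝ := ∑' x : Places S × ℕ, rsTerm a σ x

/-- The partial Rankin-Selberg `L`-function `L^S(σ, π × π~)` converges for `σ > 1` and has a pole of order `m`
at `1`. -/
def RSPole {n : ℕ} (a : Places S → Fin n → ℂ) (m : ℕ) : Prop :=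
  (∀ σ : ℝ, 1 < σ → Summable (rsTerm a σ)) ∧
  ∃ c : ℝ, 0 < c ∧ Tendsto (fun σ : ℝ => (σ - 1) ^ m * Real.exp (logRS a σ)) (𝓝[>] 1) (𝓝 c)

/-- the term of the logarithm of the partial standard `L`-function -/
noncomputable def stdTerm {n : ℕ} (a : Places S → Fin n → ℂ) (σ : ℝ) (x : Places S × ℕ) : ℂ :=
  (∑ i, a x.1 i ^ (x.2 + 1)) / ((x.2 : ℂ) + 1) * ((((Nm x.1.1 : ℝ) ^ (-σ)) ^ (x.2 + 1) : ℝ) : ℂ)

/-- `log L^S(σ, π) = ∑_{v ∉ S} ∑_{k ≥ 1} (∑_i a_{i,v}^k) / k · (N v)^{-kσ}` -/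
noncomputable def logStd {n : ℕ} (a : Places S → Fin n → ℂ) (σ : ℝ) : ℂ := ∑' x : Places S × ℕ, stdTerm a σ x

/-- The partial standard `L`-function is finite and not zero at `1`. -/
def Regular {n : ℕ} (a : Places S → Fin n → ℂ) : Prop :=
  ∃ c : ℂ, c ≠ 0 ∧ Tendsto (fun σ : ℝ => Complex.exp (logStd a σ)) (𝓝[>] 1) (𝓝 c)

/-- `∑_{v ∈ Z} (N v)^{-σ} ≤ δ log (1 / (σ - 1)) + O(1)`; so the upper Dirichlet density of `Z` is at most `δ`. -/
def UpperLE (Z : Set (Places S)) (δ : ℝ) : Prop :=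
  ∃ C : ℝ, ∀ᶠ σ : ℝ in 𝓝[>] 1, ∑' v : Places S, Z.indicator (ww σ) v ≤ δ * Real.log (1 / (σ - 1)) + C

/-- `∑_{v ∈ Z} (N v)^{-σ} ≥ δ log (1 / (σ - 1)) - O(1)`; so the lower Dirichlet density of `Z` is at least `δ`. -/
def LowerGE (Z : Set (Places S)) (δ : ℝ) : Prop :=
  ∃ C : ℝ, ∀ᶠ σ : ℝ in 𝓝[>] 1, δ * Real.log (1 / (σ - 1)) - C ≤ ∑' v : Places S, Z.indicator (ww σ) v

end

theorem lower_of_upper {K : Type} [Field K] [NumberField K] {S : Finset (HeightOneSpectrum (𝓞 K))}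
    {Z W : Set (Places S)} {δ ε : ℝ} (h : Pool.Agent.H406.GLF.UpperLE Z δ) (hW : ∀ v, v ∉ W → v ∈ Z)
    (hd : ε ≤ 1 - δ) : LowerGE W ε := by
  refine (h.compl.mono hd).subset fun v hv => ?_
  by_contra h'
  exact hv (hW v h')

/-- **Densities of the nontempered places for `GL(4)` in the symplectic type.** -/
theorem result {K : Type} [Field K] [NumberField K] (S : Finset (HeightOneSpectrum (𝓞 K)))
    (α : Places S → Fin 4 → ℂ) (ω : Places S → ℂ) (hU : ∀ v, Unitary (α v)) (hS : ∀ v, Sympl (α v) (ω v))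
    (h1 : RSPole α 1) (h5 : RSPole (fun v => std5 (α v) (ω v)) 1) (hr5 : Regular fun v => std5 (α v) (ω v)) :
    (∀ r : ℝ, 1 ≤ r → UpperLE {v : Places S | First (α v) (ω v) r} (1 / (1 + ((r + r⁻¹) ^ 2 - 3) ^ 2))) ∧
    (∀ r k : ℝ, 1 ≤ r → 0 ≤ k → UpperLE {v : Places S | Second (α v) (ω v) r}
      (((r + r⁻¹ + √(1 + k ^ 2)) / ((r + r⁻¹) ^ 2 - 1 + k)) ^ 2)) ∧
    LowerGE {v : Places S | ¬ First (α v) (ω v) 1} (1 / 2) ∧
    LowerGE {v : Places S | ¬ Second (α v) (ω v) 1} (2 / 7) ∧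
    LowerGE {v : Places S | ∀ i, ‖α v i‖ < 27 / 20} (1 / 100) ∧
    LowerGE {v : Places S | ∀ i, ‖α v i‖ < 2} (13 / 25) := by
  have hF : ∀ r : ℝ, 1 ≤ r → Pool.Agent.H406.GLF.UpperLE {v : Places S | First (α v) (ω v) r}
      (1 / (1 + ((r + r⁻¹) ^ 2 - 3) ^ 2)) := fun r hr => Pool.Agent.H406.GLF.first_upper hU hS h5 hr5 hr
  have hT : ∀ r k : ℝ, 1 ≤ r → 0 ≤ k → Pool.Agent.H406.GLF.UpperLE {v : Places S | Second (α v) (ω v) r}
      (((r + r⁻¹ + √(1 + k ^ 2)) / ((r + r⁻¹) ^ 2 - 1 + k)) ^ 2) := fun r k hr hk =>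
    Pool.Agent.H406.GLF.second_upper hU hS h1 h5 hr5 hr hk
  have hB : ∀ r : ℝ, 1 < r → ∀ v : Places S, v ∉ {v : Places S | ∀ i, ‖α v i‖ < r} →
      v ∈ {v : Places S | First (α v) (ω v) r} ∪ {v : Places S | Second (α v) (ω v) r} := by
    intro r hr v hv
    simp only [Set.mem_ofPred_eq, not_forall, not_lt] at hv
    obtain ⟨i, hi⟩ := hv
    by_cases hk : ∃ ρ : ℝ, 0 < ρ ∧ α v i ^ 2 = ρ * ω v
    · exact Or.inr ⟨i, by linarith, hi, hk⟩
    · exact Or.inl ⟨i, by linarith, hi, hk⟩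
  refine ⟨hF, hT, ?_, ?_, ?_, ?_⟩
  · refine lower_of_upper (hF 1 le_rfl) (fun v hv => ?_) (by norm_num)
    simpa using hv
  · refine lower_of_upper (hT 1 (3 / 2) le_rfl (by norm_num)) (fun v hv => ?_) ?_
    · simpa using hv
    · have h3 : √(1 + (3 / 2 : ℝ) ^ 2) ≤ 1803 / 1000 := by
        rw [Real.sqrt_le_left (by norm_num)]
        norm_num
      have h4 : ((1 + (1 : ℝ)⁻¹ + √(1 + (3 / 2) ^ 2)) / ((1 + (1 : ℝ)⁻¹) ^ 2 - 1 + 3 / 2)) ^ 2 ≤
          ((1 + (1 : ℝ)⁻¹ + 1803 / 1000) / ((1 + (1 : ℝ)⁻¹) ^ 2 - 1 + 3 / 2)) ^ 2 := by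
        refine pow_le_pow_left₀ (by positivity) ?_ 2
        refine div_le_div_of_nonneg_right (by linarith) (by norm_num)
      refine le_trans ?_ (sub_le_sub_left h4 1)
      norm_num
  · refine lower_of_upper ((hF (27 / 20) (by norm_num)).union (hT (27 / 20) (5 / 4) (by norm_num) (by norm_num)))
      (hB _ (by norm_num)) ?_
    have h3 : √(1 + (5 / 4 : ℝ) ^ 2) ≤ 1601 / 1000 := by
      rw [Real.sqrt_le_left (by norm_num)]
      norm_num
    have h4 : ((27 / 20 + (27 / 20 : ℝ)⁻¹ + √(1 + (5 / 4) ^ 2)) / ((27 / 20 + (27 / 20 : ℝ)⁻¹) ^ 2 - 1 + 5 / 4)) ^ 2 ≤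
        ((27 / 20 + (27 / 20 : ℝ)⁻¹ + 1601 / 1000) / ((27 / 20 + (27 / 20 : ℝ)⁻¹) ^ 2 - 1 + 5 / 4)) ^ 2 := by
      have h5 : (0 : ℝ) < (27 / 20 + (27 / 20 : ℝ)⁻¹) ^ 2 - 1 + 5 / 4 := by norm_num
      refine pow_le_pow_left₀ (by positivity) ?_ 2
      refine div_le_div_of_nonneg_right (by linarith) h5.le
    refine le_trans ?_ (sub_le_sub_left (add_le_add_right h4 _) 1)
    norm_num
  · refine lower_of_upper ((hF 2 (by norm_num)).union (hT 2 (3 / 4) (by norm_num) (by norm_num)))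
      (hB _ (by norm_num)) ?_
    have h3 : √(1 + (3 / 4 : ℝ) ^ 2) = 5 / 4 := by
      rw [show 1 + (3 / 4 : ℝ) ^ 2 = (5 / 4) ^ 2 by norm_num, Real.sqrt_sq (by norm_num)]
    rw [h3]
    norm_num

end Pool.Agent.Results.MP_8410ab_nt.SymplecticDensities
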